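import Mathlib

/-!
# Equidistribution of finite orbits: amplification by powers and independent conjugates
-/

set_option autoImplicit false

namespace Pool.Agent.U644.EQ

universe u

open MeasureTheory Filter Topology Finset

open Classical in
/-- Spaces with special points, their finite Galois orbits and special subvarieties, closed under powers. -/
structure EquiTheory where
  Sh : Type u
  dim : Sh → ℕ
  dim_pos : ∀ S, 1 ≤ dim S
  X : Sh → Type
  [top : ∀ S, TopologicalSpace (X S)]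
  [t2 : ∀ S, T2Space (X S)]
  [lc : ∀ S, LocallyCompactSpace (X S)]
  [sc : ∀ S, SecondCountableTopology (X S)]
  [ms : ∀ S, MeasurableSpace (X S)]
  [bs : ∀ S, BorelSpace (X S)]
  m : ∀ S, Measure (X S)
  [prob : ∀ S, IsProbabilityMeasure (m S)]
  P : Sh → Type
  pt : ∀ {S}, P S → X S
  orb : ∀ {S}, P S → Finset (P S)
  self_mem : ∀ {S} (x : P S), x ∈ orb x
  orb_eq : ∀ {S} (x y : P S), y ∈ orb x → orb y = orb x
  Spec : ∀ S, Set (Set (X S))
  spec_countable : ∀ S, (Spec S).Countable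
  pow : Sh → ℕ → Sh
  dim_pow : ∀ S k, dim (pow S k) = (k + 1) * dim S
  powX : ∀ S k, X (pow S k) ≃ₜ (Fin (k + 1) → X S)
  powP : ∀ S k, P (pow S k) ≃ (Fin (k + 1) → P S)
  pow_pt : ∀ S k (y : P (pow S k)) i, powX S k (pt y) i = pt (powP S k y i)
  pow_orb : ∀ S k (y z : P (pow S k)), z ∈ orb y → ∀ i, powP S k z i ∈ orb (powP S k y i)
  pow_m : ∀ S k, MeasurePreserving (powX S k) (m (pow S k)) (Measure.pi fun _ => m S)
  generic : ∀ S k (x : ℕ → P S), (∀ Z ∈ Spec S, ∀ᶠ i in atTop, pt (x i) ∉ Z) → ∀ Z ∈ Spec (pow S k),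
    Tendsto (fun i => (((Fintype.piFinset fun _ : Fin (k + 1) => orb (x i)).filter
      fun y => pt ((powP S k).symm y) ∈ Z).card : ℝ) / ((orb (x i)).card : ℝ) ^ (k + 1)) atTop (𝓝 0)

attribute [instance] EquiTheory.top EquiTheory.t2 EquiTheory.lc EquiTheory.sc EquiTheory.ms EquiTheory.bs EquiTheory.prob

variable (T : EquiTheory.{u})

/-- a strict sequence -/
def Strict {S : T.Sh} (x : ℕ → T.P S) : Prop := ∀ Z ∈ T.Spec S, ∀ᶠ i in atTop, T.pt (x i) ∉ Z

/-- average over the orbit -/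
noncomputable def avg {S : T.Sh} (f : T.X S → ℝ) (x : T.P S) : ℝ := (∑ y ∈ T.orb x, f (T.pt y)) / (T.orb x).card

lemma card_pos {S : T.Sh} (x : T.P S) : 0 < ((T.orb x).card : ℝ) := by
  exact_mod_cast Finset.card_pos.2 ⟨x, T.self_mem x⟩

/-- averages over a set closed under orbits -/
lemma sum_avg {S : T.Sh} (A : Finset (T.P S)) (hA : ∀ y ∈ A, T.orb y ⊆ A) (f : T.X S → ℝ) :
    ∑ y ∈ A, avg T f y = ∑ z ∈ A, f (T.pt z) := by
  unfold avg
  have h1 : ∀ y ∈ A, (∑ z ∈ T.orb y, f (T.pt z)) / (T.orb y).card = ∑ z ∈ T.orb y, f (T.pt z) / (T.orb z).card := by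
    intro y _
    rw [Finset.sum_div]
    refine Finset.sum_congr rfl fun z hz => ?_
    rw [T.orb_eq y z hz]
  rw [Finset.sum_congr rfl h1]
  rw [Finset.sum_comm' (t' := A) (s' := fun z => T.orb z)]
  · refine Finset.sum_congr rfl fun z _ => ?_
    rw [Finset.sum_const, nsmul_eq_mul, mul_div_cancel₀]
    exact (card_pos T z).ne'
  · intro y z
    constructor
    · rintro ⟨hy, hz⟩
      exact ⟨by rw [T.orb_eq y z hz]; exact T.self_mem y, hA y hy hz⟩
    · rintro ⟨hy, hz⟩
      exact ⟨hA z hz hy, by rw [T.orb_eq z y hy]; exact T.self_mem z⟩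

/-- the tuples of points of an orbit -/
def tup (S : T.Sh) (k : ℕ) (x : T.P S) : Finset (T.P (T.pow S k)) :=
  (Fintype.piFinset fun _ : Fin (k + 1) => T.orb x).map (T.powP S k).symm.toEmbedding

lemma mem_tup {S : T.Sh} {k : ℕ} {x : T.P S} {y : T.P (T.pow S k)} :
    y ∈ tup T S k x ↔ ∀ i, T.powP S k y i ∈ T.orb x := by
  unfold tup
  rw [Finset.mem_map_equiv, Equiv.symm_symm, Fintype.mem_piFinset]

lemma tup_closed {S : T.Sh} {k : ℕ} {x : T.P S} (y : T.P (T.pow S k)) (hy : y ∈ tup T S k x) :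
    T.orb y ⊆ tup T S k x := by
  intro z hz
  rw [mem_tup] at hy ⊢
  intro i
  have h1 := T.pow_orb S k y z hz i
  rwa [T.orb_eq x _ (hy i)] at h1

lemma card_tup {S : T.Sh} {k : ℕ} {x : T.P S} : (tup T S k x).card = (T.orb x).card ^ (k + 1) := by
  unfold tup
  rw [Finset.card_map, Fintype.card_piFinset_const]

/-- the product function -/
def prodFun {S : T.Sh} (k : ℕ) (f : T.X S → ℝ) (y : T.X (T.pow S k)) : ℝ := ∏ i, f (T.powX S k y i)

lemma sum_prodFun {S : T.Sh} (k : ℕ) (f : T.X S → ℝ) (x : T.P S) :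
    ∑ y ∈ tup T S k x, prodFun T k f (T.pt y) = (∑ z ∈ T.orb x, f (T.pt z)) ^ (k + 1) := by
  unfold tup prodFun
  rw [Finset.sum_map]
  have h1 : ∀ y : Fin (k + 1) → T.P S, ∏ i, f (T.powX S k (T.pt ((T.powP S k).symm.toEmbedding y)) i) =
      ∏ i, f (T.pt (y i)) := by
    intro y
    refine Finset.prod_congr rfl fun i _ => ?_
    rw [T.pow_pt, Equiv.coe_toEmbedding, Equiv.apply_symm_apply]
  simp_rw [h1]
  rw [← Finset.prod_univ_sum (fun _ : Fin (k + 1) => T.orb x) (fun _ z => f (T.pt z)), Finset.prod_const,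
    Finset.card_univ, Fintype.card_fin]

/-- the average of the averages of the product function is the power of the average -/
lemma mean_pow {S : T.Sh} (k : ℕ) (f : T.X S → ℝ) (x : T.P S) :
    (∑ y ∈ tup T S k x, avg T (prodFun T k f) y) / (tup T S k x).card = avg T f x ^ (k + 1) := by
  rw [sum_avg T _ (fun y hy => tup_closed T y hy), sum_prodFun, card_tup]
  unfold avg
  push_cast
  rw [div_pow]

lemma integral_prodFun {S : T.Sh} (k : ℕ) (f : T.X S → ℝ) :
    ∫ y, prodFun T k f y ∂(T.m (T.pow S k)) = (∫ y, f y ∂(T.m S)) ^ (k + 1) := by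
  have h1 := (T.pow_m S k).integral_comp (T.powX S k).measurableEmbedding (fun y => ∏ i, f (y i))
  unfold prodFun
  rw [h1, integral_fintype_prod_eq_pow, Fintype.card_fin]

lemma prodFun_cont {S : T.Sh} (k : ℕ) (f : T.X S → ℝ) (hf : Continuous f) : Continuous (prodFun T k f) := by
  unfold prodFun
  refine continuous_finsetProd _ fun i _ => hf.comp ?_
  exact (continuous_apply i).comp (T.powX S k).continuous

lemma prodFun_supp {S : T.Sh} (k : ℕ) (f : T.X S → ℝ) (hf : HasCompactSupport f) :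
    HasCompactSupport (prodFun T k f) := by
  have h1 : IsCompact (Set.pi Set.univ fun _ : Fin (k + 1) => tsupport f) := isCompact_univ_pi fun _ => hf
  have h2 : IsCompact ((T.powX S k) ⁻¹' (Set.pi Set.univ fun _ : Fin (k + 1) => tsupport f)) :=
    (T.powX S k).isCompact_preimage.2 h1
  refine HasCompactSupport.intro h2 fun y hy => ?_
  rw [Set.mem_preimage, Set.mem_univ_pi] at hy
  push Not at hy
  obtain ⟨i, hi⟩ := hy
  exact Finset.prod_eq_zero (Finset.mem_univ i) (image_eq_zero_of_notMem_tsupport hi)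

open Classical in
lemma generic' {S : T.Sh} (k : ℕ) (x : ℕ → T.P S) (hx : Strict T x) (Z : Set (T.X (T.pow S k)))
    (hZ : Z ∈ insert ∅ (T.Spec (T.pow S k))) :
    Tendsto (fun i => (((tup T S k (x i)).filter fun y => T.pt y ∈ Z).card : ℝ) / (tup T S k (x i)).card) atTop
      (𝓝 0) := by
  rcases hZ with rfl | hZ
  · simp
  · refine (T.generic S k x hx Z hZ).congr fun i => ?_
    rw [card_tup]
    push_cast
    congr 2
    unfold tup
    rw [Finset.filter_map, Finset.card_map]
    rfl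

open Classical in
/-- a property which holds eventually along all strict sequences of the power holds for most of the tuples -/
lemma most {S : T.Sh} (k : ℕ) (x : ℕ → T.P S) (hx : Strict T x) (Q : T.P (T.pow S k) → Prop)
    (hQ : ∀ y : ℕ → T.P (T.pow S k), Strict T y → ∀ᶠ i in atTop, Q (y i)) (δ : ℝ) (hδ : 0 < δ) :
    ∀ᶠ i in atTop, (((tup T S k (x i)).filter fun y => ¬ Q y).card : ℝ) < δ * (tup T S k (x i)).card := by
  by_contra hcon
  rw [Filter.not_eventually] at hcon
  obtain ⟨Zs, hZs⟩ := ((T.spec_countable (T.pow S k)).insert ∅).exists_eq_range (Set.insert_nonempty _ _)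
  have hy : ∀ r : ℕ, ∃ y : T.P (T.pow S k), ¬ Q y ∧ ∀ l ∈ range (r + 1), T.pt y ∉ Zs l := by
    intro r
    have h1 : Tendsto (fun i => ∑ l ∈ range (r + 1), (((tup T S k (x i)).filter fun y => T.pt y ∈ Zs l).card : ℝ) /
        (tup T S k (x i)).card) atTop (𝓝 (∑ l ∈ range (r + 1), (0 : ℝ))) :=
      tendsto_finsetSum _ fun l _ => generic' T k x hx (Zs l) (by rw [hZs]; exact ⟨l, rfl⟩)
    rw [Finset.sum_const_zero] at h1
    obtain ⟨i, hi1, hi2⟩ := (hcon.and_eventually (h1.eventually (gt_mem_nhds hδ))).exists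
    by_contra hno
    push Not at hno hi1
    have hpos : (0 : ℝ) < (tup T S k (x i)).card := by
      rw [card_tup]
      push_cast
      exact pow_pos (card_pos T _) _
    have hsub : ((tup T S k (x i)).filter fun y => ¬ Q y) ⊆
        (range (r + 1)).biUnion fun l => (tup T S k (x i)).filter fun y => T.pt y ∈ Zs l := by
      intro y hy
      rw [Finset.mem_filter] at hy
      obtain ⟨l, hl, hl'⟩ := hno y hy.2
      rw [Finset.mem_biUnion]
      exact ⟨l, hl, by rw [Finset.mem_filter]; exact ⟨hy.1, hl'⟩⟩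
    have hc1 := (Finset.card_le_card hsub).trans Finset.card_biUnion_le
    have hc2 : (((tup T S k (x i)).filter fun y => ¬ Q y).card : ℝ) ≤
        ∑ l ∈ range (r + 1), (((tup T S k (x i)).filter fun y => T.pt y ∈ Zs l).card : ℝ) := by
      exact_mod_cast hc1
    rw [← Finset.sum_div, div_lt_iff₀ hpos] at hi2
    linarith
  choose y hy1 hy2 using hy
  have hstrict : Strict T y := by
    intro Z hZ
    have hZ' : Z ∈ Set.range Zs := by rw [← hZs]; exact Set.mem_insert_of_mem _ hZ
    obtain ⟨l, rfl⟩ := hZ'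
    filter_upwards [eventually_ge_atTop l] with r hr
    exact hy2 r l (Finset.mem_range.2 (by omega))
  obtain ⟨r, hr⟩ := (hQ y hstrict).exists
  exact hy1 r hr

end Pool.Agent.U644.EQ
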