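import Pool.Agent.U644.EQ.Core

set_option autoImplicit false

namespace Pool.Agent.U644.EQ

universe u

open MeasureTheory Filter Topology Finset

variable (T : EquiTheory.{u})

/-- lower bound for the averages -/
def LowerAt (S : T.Sh) (c : ℝ) : Prop :=
  ∀ x : ℕ → T.P S, Strict T x → ∀ f : T.X S → ℝ, Continuous f → HasCompactSupport f → (∀ y, 0 ≤ f y) →
    ∀ ε : ℝ, 0 < ε → ∀ᶠ i in atTop, c * ∫ y, f y ∂(T.m S) - ε ≤ avg T f (x i)

/-- upper bound for the averages -/
def UpperAt (S : T.Sh) (C : ℝ) : Prop :=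
  ∀ x : ℕ → T.P S, Strict T x → ∀ f : T.X S → ℝ, Continuous f → HasCompactSupport f → (∀ y, 0 ≤ f y) →
    ∀ ε : ℝ, 0 < ε → ∀ᶠ i in atTop, avg T f (x i) ≤ C * ∫ y, f y ∂(T.m S) + ε

/-- equidistribution of strict sequences -/
def Equid (S : T.Sh) : Prop :=
  ∀ x : ℕ → T.P S, Strict T x → ∀ f : T.X S → ℝ, Continuous f → HasCompactSupport f →
    Tendsto (fun i => avg T f (x i)) atTop (𝓝 (∫ y, f y ∂(T.m S)))

open Classical in
/-- no escape of mass -/
def NoEscape (S : T.Sh) : Prop :=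
  ∀ x : ℕ → T.P S, Strict T x → ∀ ε : ℝ, 0 < ε → ∃ K : Set (T.X S), IsCompact K ∧
    ∀ᶠ i in atTop, (1 - ε) * (T.orb (x i)).card ≤ ((T.orb (x i)).filter fun y => T.pt y ∈ K).card

lemma avg_nonneg {S : T.Sh} (f : T.X S → ℝ) (hf : ∀ y, 0 ≤ f y) (x : T.P S) : 0 ≤ avg T f x :=
  div_nonneg (Finset.sum_nonneg fun _ _ => hf _) (Nat.cast_nonneg _)

lemma avg_le {S : T.Sh} (f : T.X S → ℝ) (M : ℝ) (hf : ∀ y, f y ≤ M) (x : T.P S) : avg T f x ≤ M := by
  unfold avg
  rw [div_le_iff₀ (card_pos T x), mul_comm, ← nsmul_eq_mul]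
  exact Finset.sum_le_card_nsmul _ _ _ fun y _ => hf _

lemma prodFun_nonneg {S : T.Sh} (k : ℕ) (f : T.X S → ℝ) (hf : ∀ y, 0 ≤ f y) (y : T.X (T.pow S k)) :
    0 ≤ prodFun T k f y := Finset.prod_nonneg fun _ _ => hf _

lemma card_tup_pos {S : T.Sh} (k : ℕ) (x : T.P S) : (0 : ℝ) < (tup T S k x).card := by
  rw [card_tup]
  push_cast
  exact pow_pos (card_pos T _) _

open Classical in
lemma amp_lower (S : T.Sh) (c : ℕ → ℝ) (hc : ∀ θ : ℝ, 1 < θ → ∀ᶠ k : ℕ in atTop, 1 ≤ c k * θ ^ (k + 1))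
    (h : ∀ k, LowerAt T (T.pow S k) (c k)) : LowerAt T S 1 := by
  intro x hx f hf hfs hf0 ε hε
  set I : ℝ := ∫ y, f y ∂(T.m S) with hI
  rw [one_mul]
  by_cases ha : I - ε ≤ 0
  · exact Eventually.of_forall fun i => ha.trans (avg_nonneg T f hf0 _)
  push Not at ha
  set a : ℝ := I - ε with hadef
  have hI0 : 0 < I := by linarith
  set θ : ℝ := Real.sqrt (I / a) with hθdef
  have hratio : 1 < I / a := by rw [one_lt_div ha]; linarith
  have hθ : 1 < θ := by
    rw [hθdef, Real.lt_sqrt (by norm_num)]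
    simpa using hratio
  have hIθ : I = θ ^ 2 * a := by
    rw [hθdef, Real.sq_sqrt (by positivity)]
    field_simp
  obtain ⟨k, hk⟩ := (hc θ hθ).exists
  set G : ℝ := c k * I ^ (k + 1) with hG
  set g : ℝ := a ^ (k + 1) with hg
  have hg0 : 0 < g := pow_pos ha _
  have hθk : 1 < θ ^ (k + 1) := one_lt_pow₀ hθ (Nat.succ_ne_zero k)
  have hGg : g < G := by
    have h1 : G = (c k * θ ^ (k + 1)) * (θ ^ (k + 1) * g) := by
      rw [hG, hg, hIθ, mul_pow, ← pow_mul, mul_comm 2 (k + 1), pow_mul]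
      ring
    have h2 : g < θ ^ (k + 1) * g := by nlinarith
    have h3 : 0 < θ ^ (k + 1) * g := by positivity
    rw [h1]
    nlinarith
  set η : ℝ := (G - g) / 2 with hη
  set δ : ℝ := (G - g) / (G + g) with hδ
  have hη0 : 0 < η := by rw [hη]; linarith
  have hGg0 : 0 < G + g := by linarith
  have hδ0 : 0 < δ := div_pos (by linarith) hGg0
  have hkey : (1 - δ) * (G - η) = g := by
    rw [hδ, hη]
    field_simp
    ring
  have hmost := most T k x hx (fun y => G - η ≤ avg T (prodFun T k f) y) (fun y hy => by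
    have := h k y hy (prodFun T k f) (prodFun_cont T k f hf) (prodFun_supp T k f hfs) (prodFun_nonneg T k f hf0) η hη0
    rwa [integral_prodFun, ← hI, ← hG] at this) δ hδ0
  filter_upwards [hmost] with i hi
  have hpos := card_tup_pos T k (x i)
  have hmean := mean_pow T k f (x i)
  set A := tup T S k (x i) with hA
  have hsplit : (A.filter fun y => G - η ≤ avg T (prodFun T k f) y).card +
      (A.filter fun y => ¬ (G - η ≤ avg T (prodFun T k f) y)).card = A.card := Finset.card_filter_add_card_filter_not _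
  have hsplit' : ((A.filter fun y => G - η ≤ avg T (prodFun T k f) y).card : ℝ) +
      (A.filter fun y => ¬ (G - η ≤ avg T (prodFun T k f) y)).card = A.card := by exact_mod_cast hsplit
  have hgη : 0 < G - η := by rw [hη]; linarith
  have hsum : ((A.filter fun y => G - η ≤ avg T (prodFun T k f) y).card : ℝ) * (G - η) ≤
      ∑ y ∈ A, avg T (prodFun T k f) y := by
    calc ((A.filter fun y => G - η ≤ avg T (prodFun T k f) y).card : ℝ) * (G - η)
        ≤ ∑ y ∈ A.filter (fun y => G - η ≤ avg T (prodFun T k f) y), avg T (prodFun T k f) y := by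
          rw [← nsmul_eq_mul]
          exact Finset.card_nsmul_le_sum _ _ _ fun y hy => (Finset.mem_filter.1 hy).2
      _ ≤ ∑ y ∈ A, avg T (prodFun T k f) y := Finset.sum_le_sum_of_subset_of_nonneg (Finset.filter_subset _ _)
          fun y _ _ => avg_nonneg T _ (prodFun_nonneg T k f hf0) _
  have hfin : a ^ (k + 1) ≤ avg T f (x i) ^ (k + 1) := by
    rw [← hmean, ← hg, le_div_iff₀ hpos]
    have h4 : (1 - δ) * A.card ≤ ((A.filter fun y => G - η ≤ avg T (prodFun T k f) y).card : ℝ) := by linarith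
    have h5 := mul_le_mul_of_nonneg_right h4 hgη.le
    have h6 : (1 - δ) * A.card * (G - η) = g * A.card := by rw [← hkey]; ring
    linarith
  exact (pow_le_pow_iff_left₀ ha.le (avg_nonneg T f hf0 _) (Nat.succ_ne_zero k)).1 hfin

open Classical in
lemma amp_upper (S : T.Sh) (C : ℕ → ℝ) (hC : ∀ θ : ℝ, 1 < θ → ∀ᶠ k : ℕ in atTop, C k ≤ θ ^ (k + 1))
    (h : ∀ k, UpperAt T (T.pow S k) (C k)) : UpperAt T S 1 := by
  intro x hx f hf hfs hf0 ε hε
  set I : ℝ := ∫ y, f y ∂(T.m S) with hI
  rw [one_mul]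
  have hI0 : 0 ≤ I := integral_nonneg hf0
  set a : ℝ := I + ε with hadef
  have ha : 0 < a := by linarith
  obtain ⟨k, hk⟩ : ∃ k, max (C k) 0 * I ^ (k + 1) < a ^ (k + 1) := by
    rcases hI0.eq_or_lt with h0 | h0
    · refine ⟨0, ?_⟩
      rw [← h0]
      simpa using ha
    · set θ : ℝ := Real.sqrt (a / I) with hθdef
      have hratio : 1 < a / I := by rw [one_lt_div h0]; linarith
      have hθ : 1 < θ := by
        rw [hθdef, Real.lt_sqrt (by norm_num)]
        simpa using hratio
      have haθ : a = θ ^ 2 * I := by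
        rw [hθdef, Real.sq_sqrt (by positivity)]
        field_simp
      obtain ⟨k, hk⟩ := (hC θ hθ).exists
      refine ⟨k, ?_⟩
      have hθk : 1 < θ ^ (k + 1) := one_lt_pow₀ hθ (Nat.succ_ne_zero k)
      have h1 : max (C k) 0 ≤ θ ^ (k + 1) := max_le hk (by positivity)
      have h2 : a ^ (k + 1) = θ ^ (k + 1) * (θ ^ (k + 1) * I ^ (k + 1)) := by
        rw [haθ, mul_pow, ← pow_mul, mul_comm 2 (k + 1), pow_mul]
        ring
      have h3 : 0 < I ^ (k + 1) := pow_pos h0 _
      have h4 : max (C k) 0 * I ^ (k + 1) ≤ θ ^ (k + 1) * I ^ (k + 1) := mul_le_mul_of_nonneg_right h1 h3.le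
      have h5 : 0 < θ ^ (k + 1) * I ^ (k + 1) := by positivity
      rw [h2]
      nlinarith
  obtain ⟨M, hM⟩ := hfs.exists_bound_of_continuous hf
  have hM0 : ∀ y, f y ≤ max M 0 := fun y => ((le_abs_self _).trans (hM y)).trans (le_max_left _ _)
  set B : ℝ := max M 0 ^ (k + 1) with hB
  have hB0 : 0 ≤ B := by positivity
  have hFB : ∀ y, prodFun T k f y ≤ B := by
    intro y
    unfold prodFun
    calc ∏ i, f (T.powX S k y i) ≤ ∏ _i : Fin (k + 1), max M 0 := Finset.prod_le_prod (fun _ _ => hf0 _) fun _ _ => hM0 _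
      _ = B := by rw [Finset.prod_const, Finset.card_univ, Fintype.card_fin]
  set G : ℝ := max (C k) 0 * I ^ (k + 1) with hG
  have hG0 : 0 ≤ G := mul_nonneg (le_max_right _ _) (pow_nonneg hI0 _)
  set g : ℝ := a ^ (k + 1) with hg
  set η : ℝ := (g - G) / 2 with hη
  have hη0 : 0 < η := by rw [hη]; linarith
  set δ : ℝ := η / (B + 1) with hδ
  have hδ0 : 0 < δ := div_pos hη0 (by linarith)
  have hδB : δ * B ≤ η := by
    rw [hδ, div_mul_eq_mul_div, div_le_iff₀ (by linarith)]
    nlinarith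
  have hmost := most T k x hx (fun y => avg T (prodFun T k f) y ≤ G + η) (fun y hy => by
    have := h k y hy (prodFun T k f) (prodFun_cont T k f hf) (prodFun_supp T k f hfs) (prodFun_nonneg T k f hf0) η hη0
    rw [integral_prodFun, ← hI] at this
    filter_upwards [this] with i hi
    refine hi.trans ?_
    have : C k * I ^ (k + 1) ≤ G := mul_le_mul_of_nonneg_right (le_max_left _ _) (pow_nonneg hI0 _)
    linarith) δ hδ0
  filter_upwards [hmost] with i hi
  have hpos := card_tup_pos T k (x i)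
  have hmean := mean_pow T k f (x i)
  set A := tup T S k (x i) with hA
  have hsum : ∑ y ∈ A, avg T (prodFun T k f) y ≤ A.card * (G + η) + δ * A.card * B := by
    rw [← Finset.sum_filter_add_sum_filter_not A (fun y => avg T (prodFun T k f) y ≤ G + η)]
    have h1 : ∑ y ∈ A.filter (fun y => avg T (prodFun T k f) y ≤ G + η), avg T (prodFun T k f) y ≤ A.card * (G + η) := by
      have h2 := Finset.sum_le_card_nsmul (A.filter fun y => avg T (prodFun T k f) y ≤ G + η)
        (fun y => avg T (prodFun T k f) y) (G + η) fun y hy => (Finset.mem_filter.1 hy).2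
      rw [nsmul_eq_mul] at h2
      refine h2.trans (mul_le_mul_of_nonneg_right ?_ (by linarith))
      exact_mod_cast Finset.card_filter_le _ _
    have h3 : ∑ y ∈ A.filter (fun y => ¬ avg T (prodFun T k f) y ≤ G + η), avg T (prodFun T k f) y ≤ δ * A.card * B := by
      have h2 := Finset.sum_le_card_nsmul (A.filter fun y => ¬ avg T (prodFun T k f) y ≤ G + η)
        (fun y => avg T (prodFun T k f) y) B fun y _ => avg_le T _ B hFB _
      rw [nsmul_eq_mul] at h2
      exact h2.trans (mul_le_mul_of_nonneg_right hi.le hB0)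
    exact add_le_add h1 h3
  have hfin : avg T f (x i) ^ (k + 1) ≤ a ^ (k + 1) := by
    rw [← hmean, ← hg, div_le_iff₀ hpos]
    refine hsum.trans ?_
    have h4 : δ * A.card * B ≤ η * A.card := by
      have := mul_le_mul_of_nonneg_right hδB hpos.le
      linarith
    have h5 : (A.card : ℝ) * (G + η) + η * A.card = g * A.card := by rw [hη]; ring
    linarith
  exact (pow_le_pow_iff_left₀ (avg_nonneg T f hf0 _) ha.le (Nat.succ_ne_zero k)).1 hfin

end Pool.Agent.U644.EQ
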