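import Pool.Agent.U644.EQ.Amp

set_option autoImplicit false

namespace Pool.Agent.U644.EQ

universe u

open MeasureTheory Filter Topology Finset

variable (T : EquiTheory.{u})

lemma avg_lin {S : T.Sh} (f χ : T.X S → ℝ) (M s : ℝ) (x : T.P S) :
    avg T (fun y => M * χ y + s * f y) x = M * avg T χ x + s * avg T f x := by
  unfold avg
  rw [Finset.sum_add_distrib, ← Finset.mul_sum, ← Finset.mul_sum]
  ring

/-- a cutoff function -/
lemma cutoff (S : T.Sh) (L : Set (T.X S)) (hL : IsCompact L) (ε : ℝ) (hε : 0 < ε) :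
    ∃ χ : T.X S → ℝ, Continuous χ ∧ HasCompactSupport χ ∧ (∀ y, 0 ≤ χ y) ∧ (∀ y, χ y ≤ 1) ∧ (∀ y ∈ L, χ y = 1) ∧
      1 - ε ≤ ∫ y, χ y ∂(T.m S) := by
  obtain ⟨K, -, hK, hKm⟩ : ∃ K ⊆ Set.univ, IsCompact K ∧ T.m S Set.univ < T.m S K + ENNReal.ofReal ε :=
    (MeasurableSet.univ (α := T.X S)).exists_isCompact_lt_add (measure_ne_top _ _) (by simpa using hε)
  obtain ⟨χ, h1, -, h3, h4⟩ := exists_continuous_one_zero_of_isCompact (hK.union hL) isClosed_empty
    (Set.disjoint_empty _)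
  refine ⟨χ, χ.continuous, h3, fun y => (h4 y).1, fun y => (h4 y).2, fun y hy => h1 (Or.inr hy), ?_⟩
  have hint : Integrable χ (T.m S) := χ.continuous.integrable_of_hasCompactSupport h3
  have h5 : (T.m S).real K ≤ ∫ y, χ y ∂(T.m S) := by
    rw [← integral_indicator_one hK.measurableSet]
    refine integral_mono ((integrable_const (1 : ℝ)).indicator hK.measurableSet) hint fun y => ?_
    by_cases hy : y ∈ K
    · rw [Set.indicator_of_mem hy, h1 (Or.inl hy)]
    · rw [Set.indicator_of_notMem hy]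
      exact (h4 y).1
  rw [measure_univ] at hKm
  have h6 : (1 : ℝ) ≤ (T.m S).real K + ε := by
    have h7 := ENNReal.toReal_mono (by finiteness) hKm.le
    rw [ENNReal.toReal_one, ENNReal.toReal_add (measure_ne_top _ _) ENNReal.ofReal_ne_top,
      ENNReal.toReal_ofReal hε.le] at h7
    exact h7
  linarith

/-- an auxiliary decomposition: bounds for `M χ ± f` -/
lemma bdd {S : T.Sh} (f : T.X S → ℝ) (hf : Continuous f) (hfs : HasCompactSupport f) :
    ∃ M : ℝ, 0 ≤ M ∧ ∀ y, |f y| ≤ M := by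
  obtain ⟨M, hM⟩ := hfs.exists_bound_of_continuous hf
  exact ⟨max M 0, le_max_right _ _, fun y => (hM y).trans (le_max_left _ _)⟩

lemma comb_nonneg {S : T.Sh} (f χ : T.X S → ℝ) (M s : ℝ) (hM : ∀ y, |f y| ≤ M) (hs : |s| ≤ 1) (hM0 : 0 ≤ M)
    (h0 : ∀ y, 0 ≤ χ y) (h1 : ∀ y ∈ tsupport f, χ y = 1) (y : T.X S) : 0 ≤ M * χ y + s * f y := by
  by_cases hy : y ∈ tsupport f
  · rw [h1 y hy]
    have h2 : |s * f y| ≤ M := by
      rw [abs_mul]
      calc |s| * |f y| ≤ 1 * M := mul_le_mul hs (hM y) (abs_nonneg _) zero_le_one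
        _ = M := one_mul _
    have := (abs_le.1 h2).1
    linarith
  · rw [image_eq_zero_of_notMem_tsupport hy, mul_zero, add_zero]
    exact mul_nonneg hM0 (h0 y)

lemma comb_cont {S : T.Sh} (f χ : T.X S → ℝ) (M s : ℝ) (hf : Continuous f) (hχ : Continuous χ) :
    Continuous fun y => M * χ y + s * f y := by fun_prop

lemma comb_supp {S : T.Sh} (f χ : T.X S → ℝ) (M s : ℝ) (hf : HasCompactSupport f) (hχ : HasCompactSupport χ) :
    HasCompactSupport fun y => M * χ y + s * f y :=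
  (hχ.mul_left (f := fun _ => M)).add (hf.mul_left (f := fun _ => s))

lemma comb_int {S : T.Sh} (f χ : T.X S → ℝ) (M s : ℝ) (hf : Continuous f) (hχ : Continuous χ)
    (hfs : HasCompactSupport f) (hχs : HasCompactSupport χ) :
    ∫ y, (M * χ y + s * f y) ∂(T.m S) = M * ∫ y, χ y ∂(T.m S) + s * ∫ y, f y ∂(T.m S) := by
  rw [integral_add ((hχ.integrable_of_hasCompactSupport hχs).const_mul M)
    ((hf.integrable_of_hasCompactSupport hfs).const_mul s), integral_const_mul, integral_const_mul]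

lemma equid_of_lower (S : T.Sh) (h : LowerAt T S 1) : Equid T S := by
  intro x hx f hf hfs
  obtain ⟨M, hM0, hM⟩ := bdd T f hf hfs
  rw [Metric.tendsto_nhds]
  intro ε hε
  set e : ℝ := ε / (M + 2) with he
  have he0 : 0 < e := div_pos hε (by linarith)
  have heε : (M + 1) * e < ε := by
    have : (M + 2) * e = ε := by rw [he]; field_simp
    nlinarith
  obtain ⟨χ, c1, c2, c3, c4, c5, c6⟩ := cutoff T S (tsupport f) hfs e he0
  have hup := h x hx (fun y => M * χ y + 1 * f y) (comb_cont T f χ M 1 hf c1) (comb_supp T f χ M 1 hfs c2)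
    (comb_nonneg T f χ M 1 hM (by simp) hM0 c3 c5) e he0
  have hlo := h x hx (fun y => M * χ y + (-1) * f y) (comb_cont T f χ M (-1) hf c1) (comb_supp T f χ M (-1) hfs c2)
    (comb_nonneg T f χ M (-1) hM (by simp) hM0 c3 c5) e he0
  filter_upwards [hup, hlo] with i h1 h2
  rw [comb_int T f χ M _ hf c1 hfs c2, avg_lin] at h1 h2
  have h3 : avg T χ (x i) ≤ 1 := avg_le T χ 1 c4 _
  have h4 : M * avg T χ (x i) ≤ M * 1 := mul_le_mul_of_nonneg_left h3 hM0
  have h5 : M * (1 - e) ≤ M * ∫ y, χ y ∂(T.m S) := mul_le_mul_of_nonneg_left c6 hM0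
  rw [Real.dist_eq, abs_lt]
  constructor <;> nlinarith

open Classical in
lemma lower_of_upper (S : T.Sh) (h : UpperAt T S 1) (hN : NoEscape T S) : LowerAt T S 1 := by
  intro x hx f hf hfs hf0 ε hε
  obtain ⟨M, hM0, hM⟩ := bdd T f hf hfs
  set e : ℝ := ε / (M + 2) with he
  have he0 : 0 < e := div_pos hε (by linarith)
  have heε : (M + 1) * e < ε := by
    have : (M + 2) * e = ε := by rw [he]; field_simp
    nlinarith
  obtain ⟨K, hK, hN'⟩ := hN x hx e he0
  obtain ⟨χ, c1, c2, c3, c4, c5, c6⟩ := cutoff T S (K ∪ tsupport f) (hK.union hfs) e he0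
  have c5' : ∀ y ∈ tsupport f, χ y = 1 := fun y hy => c5 y (Or.inr hy)
  have hlo := h x hx (fun y => M * χ y + (-1) * f y) (comb_cont T f χ M (-1) hf c1) (comb_supp T f χ M (-1) hfs c2)
    (comb_nonneg T f χ M (-1) hM (by simp) hM0 c3 c5') e he0
  filter_upwards [hlo, hN'] with i h2 hi
  rw [comb_int T f χ M _ hf c1 hfs c2, avg_lin] at h2
  have hχ : 1 - e ≤ avg T χ (x i) := by
    unfold avg
    rw [le_div_iff₀ (card_pos T _)]
    refine hi.trans ?_
    have h7 : ∑ y ∈ (T.orb (x i)).filter (fun y => T.pt y ∈ K), χ (T.pt y) =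
        ((T.orb (x i)).filter fun y => T.pt y ∈ K).card := by
      rw [Finset.sum_congr rfl fun y hy => c5 _ (Or.inl (Finset.mem_filter.1 hy).2), Finset.sum_const, nsmul_eq_mul,
        mul_one]
    rw [← h7]
    exact Finset.sum_le_sum_of_subset_of_nonneg (Finset.filter_subset _ _) fun _ _ _ => c3 _
  have h4 : M * (1 - e) ≤ M * avg T χ (x i) := mul_le_mul_of_nonneg_left hχ hM0
  have hint1 : ∫ y, χ y ∂(T.m S) ≤ 1 := by
    have := integral_mono (c1.integrable_of_hasCompactSupport c2) (integrable_const (1 : ℝ) (μ := T.m S)) c4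
    simpa using this
  have h5 : M * ∫ y, χ y ∂(T.m S) ≤ M * 1 := mul_le_mul_of_nonneg_left hint1 hM0
  nlinarith

lemma lower_of_equid (S : T.Sh) (h : Equid T S) : LowerAt T S 1 := by
  intro x hx f hf hfs _ ε hε
  have h1 := h x hx f hf hfs
  rw [Metric.tendsto_nhds] at h1
  filter_upwards [h1 ε hε] with i hi
  rw [Real.dist_eq, abs_lt] at hi
  linarith

lemma upper_of_equid (S : T.Sh) (h : Equid T S) : UpperAt T S 1 := by
  intro x hx f hf hfs _ ε hε
  have h1 := h x hx f hf hfs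
  rw [Metric.tendsto_nhds] at h1
  filter_upwards [h1 ε hε] with i hi
  rw [Real.dist_eq, abs_lt] at hi
  linarith

open Classical in
lemma noEscape_of_equid (S : T.Sh) (h : Equid T S) : NoEscape T S := by
  intro x hx ε hε
  obtain ⟨χ, c1, c2, c3, c4, -, c6⟩ := cutoff T S ∅ isCompact_empty (ε / 2) (by linarith)
  refine ⟨tsupport χ, c2, ?_⟩
  have h1 := h x hx χ c1 c2
  rw [Metric.tendsto_nhds] at h1
  filter_upwards [h1 (ε / 2) (by linarith)] with i hi
  rw [Real.dist_eq, abs_lt] at hi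
  have h2 : 1 - ε ≤ avg T χ (x i) := by linarith
  unfold avg at h2
  rw [le_div_iff₀ (card_pos T _)] at h2
  refine h2.trans ?_
  rw [← Finset.sum_filter_add_sum_filter_not (T.orb (x i)) (fun y => T.pt y ∈ tsupport χ)]
  have h3 : ∑ y ∈ (T.orb (x i)).filter (fun y => ¬ T.pt y ∈ tsupport χ), χ (T.pt y) = 0 :=
    Finset.sum_eq_zero fun y hy => image_eq_zero_of_notMem_tsupport (Finset.mem_filter.1 hy).2
  rw [h3, add_zero]
  have h4 := Finset.sum_le_card_nsmul ((T.orb (x i)).filter fun y => T.pt y ∈ tsupport χ) (fun y => χ (T.pt y)) 1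
    fun y _ => c4 _
  rwa [nsmul_eq_mul, mul_one] at h4

/-- the dimensions of the powers grow linearly -/
lemma slow_lower (S : T.Sh) (c : ℕ → ℝ) (hc : ∀ θ : ℝ, 1 < θ → ∀ᶠ n : ℕ in atTop, 1 ≤ c n * θ ^ n) (θ : ℝ) (hθ : 1 < θ) :
    ∀ᶠ k : ℕ in atTop, 1 ≤ c (T.dim (T.pow S k)) * θ ^ (k + 1) := by
  have hd := T.dim_pos S
  have hd0 : (T.dim S : ℝ) ≠ 0 := by positivity
  set ϑ : ℝ := θ ^ (1 / (T.dim S : ℝ)) with hϑ
  have hϑ1 : 1 < ϑ := Real.one_lt_rpow hθ (by positivity)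
  have htend : Tendsto (fun k : ℕ => T.dim (T.pow S k)) atTop atTop := by
    simp_rw [T.dim_pow]
    refine tendsto_atTop_mono (f := fun k => k) (fun k => ?_) tendsto_id
    nlinarith
  filter_upwards [htend.eventually (hc ϑ hϑ1)] with k hk
  refine hk.trans (le_of_eq ?_)
  congr 1
  rw [T.dim_pow, mul_comm (k + 1), pow_mul]
  congr 1
  rw [hϑ, ← Real.rpow_natCast, ← Real.rpow_mul (by linarith), one_div, inv_mul_cancel₀ hd0, Real.rpow_one]

lemma slow_upper (S : T.Sh) (C : ℕ → ℝ) (hC : ∀ θ : ℝ, 1 < θ → ∀ᶠ n : ℕ in atTop, C n ≤ θ ^ n) (θ : ℝ) (hθ : 1 < θ) :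
    ∀ᶠ k : ℕ in atTop, C (T.dim (T.pow S k)) ≤ θ ^ (k + 1) := by
  have hd := T.dim_pos S
  have hd0 : (T.dim S : ℝ) ≠ 0 := by positivity
  set ϑ : ℝ := θ ^ (1 / (T.dim S : ℝ)) with hϑ
  have hϑ1 : 1 < ϑ := Real.one_lt_rpow hθ (by positivity)
  have htend : Tendsto (fun k : ℕ => T.dim (T.pow S k)) atTop atTop := by
    simp_rw [T.dim_pow]
    refine tendsto_atTop_mono (f := fun k => k) (fun k => ?_) tendsto_id
    nlinarith
  filter_upwards [htend.eventually (hC ϑ hϑ1)] with k hk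
  refine hk.trans (le_of_eq ?_)
  rw [T.dim_pow, mul_comm (k + 1), pow_mul]
  congr 1
  rw [hϑ, ← Real.rpow_natCast, ← Real.rpow_mul (by linarith), one_div, inv_mul_cancel₀ hd0, Real.rpow_one]

/-- one space: bounds along its powers give equidistribution -/
theorem main_one (S : T.Sh) (c : ℕ → ℝ) (hc : ∀ θ : ℝ, 1 < θ → ∀ᶠ k : ℕ in atTop, 1 ≤ c k * θ ^ (k + 1))
    (h : ∀ k, LowerAt T (T.pow S k) (c k)) : Equid T S := equid_of_lower T S (amp_lower T S c hc h)

theorem main : List.TFAE [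
    ∀ S, Equid T S,
    ∃ c : ℕ → ℝ, (∀ θ : ℝ, 1 < θ → ∀ᶠ n : ℕ in atTop, 1 ≤ c n * θ ^ n) ∧ ∀ S, LowerAt T S (c (T.dim S)),
    ∃ C : ℕ → ℝ, (∀ θ : ℝ, 1 < θ → ∀ᶠ n : ℕ in atTop, C n ≤ θ ^ n) ∧ ∀ S, UpperAt T S (C (T.dim S)) ∧ NoEscape T S] := by
  tfae_have 1 → 2 := fun h => ⟨fun _ => 1, fun θ hθ => Eventually.of_forall fun n => by
    rw [one_mul]; exact one_le_pow₀ hθ.le, fun S => lower_of_equid T S (h S)⟩
  tfae_have 2 → 1 := by
    rintro ⟨c, hc, h⟩ S
    exact equid_of_lower T S (amp_lower T S _ (slow_lower T S c hc) fun k => h _)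
  tfae_have 1 → 3 := fun h => ⟨fun _ => 1, fun θ hθ => Eventually.of_forall fun n => one_le_pow₀ hθ.le,
    fun S => ⟨upper_of_equid T S (h S), noEscape_of_equid T S (h S)⟩⟩
  tfae_have 3 → 1 := by
    rintro ⟨C, hC, h⟩ S
    exact equid_of_lower T S (lower_of_upper T S (amp_upper T S _ (slow_upper T S C hC) fun k => (h _).1) (h S).2)
  tfae_finish

end Pool.Agent.U644.EQ
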