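import Pool.Agent.U644.EQ.Fin

/-!
# Products of modular curves
-/

set_option autoImplicit false

namespace Pool.Agent.U644.EQ.Mod

open MeasureTheory Filter Topology Finset

/-- modular curves over a fixed number field, CM points and Hecke correspondences -/
structure Curves where
  J : Type
  Y : J → Type
  [top : ∀ j, TopologicalSpace (Y j)]
  [t2 : ∀ j, T2Space (Y j)]
  [lc : ∀ j, LocallyCompactSpace (Y j)]
  [sc : ∀ j, SecondCountableTopology (Y j)]
  [ms : ∀ j, MeasurableSpace (Y j)]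
  [bs : ∀ j, BorelSpace (Y j)]
  μ : ∀ j, Measure (Y j)
  [prob : ∀ j, IsProbabilityMeasure (μ j)]
  CM : J → Type
  [ct : ∀ j, Countable (CM j)]
  pt : ∀ {j}, CM j → Y j
  pt_inj : ∀ {j} (x y : CM j), pt x = pt y → x = y
  Γ : Type
  [gp : Group Γ]
  [act : ∀ j, MulAction Γ (CM j)]
  fin_orb : ∀ {j} (x : CM j), (MulAction.orbit Γ x).Finite
  big : ∀ (j : J) (B : ℕ), {x : CM j | (MulAction.orbit Γ x).ncard ≤ B}.Finite
  Hecke : ∀ i j, Set (Set (Y i × Y j))
  hecke_countable : ∀ i j, (Hecke i j).Countable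
  hecke_deg : ∀ i j, ∀ R ∈ Hecke i j, ∃ D : ℕ, ∀ (y : Y i) (A : Finset (CM j)), (∀ w ∈ A, (y, pt w) ∈ R) → A.card ≤ D
  hecke_gal : ∀ i j, ∀ R ∈ Hecke i j, ∃ 𝒯 : Set (Set (Y i × Y j)), 𝒯.Finite ∧ 𝒯 ⊆ Hecke i j ∧
    ∀ (γ : Γ) (x : CM i) (y : CM j), (pt (γ • x), pt (γ • y)) ∈ R → ∃ R' ∈ 𝒯, (pt x, pt y) ∈ R'
  tight : ∀ (j : J) (w : ℕ → CM j), (∀ τ, ∀ᶠ n in atTop, w n ≠ τ) → ∀ ε : ℝ, 0 < ε → ∃ K : Set (Y j), IsCompact K ∧
    ∀ᶠ n in atTop, ({z | z ∈ MulAction.orbit Γ (w n) ∧ pt z ∉ K}.ncard : ℝ) ≤ ε * (MulAction.orbit Γ (w n)).ncard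

attribute [instance] Curves.top Curves.t2 Curves.lc Curves.sc Curves.ms Curves.bs Curves.prob Curves.ct Curves.gp Curves.act

variable (C : Curves)

/-- a product of finitely many modular curves -/
structure Prd where
  ι : Type
  [fin : Fintype ι]
  [ne : Nonempty ι]
  φ : ι → C.J

attribute [instance] Prd.fin Prd.ne

variable {C}

abbrev Sp (S : Prd C) : Type := ∀ i, C.Y (S.φ i)
abbrev Pt (S : Prd C) : Type := ∀ i, C.CM (S.φ i)

lemma finite_orbit (S : Prd C) (x : Pt S) : (MulAction.orbit C.Γ x).Finite := by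
  refine (Set.Finite.pi' (fun i => C.fin_orb (x i))).subset ?_
  rintro _ ⟨γ, rfl⟩ i
  exact ⟨γ, rfl⟩

noncomputable def orb {S : Prd C} (x : Pt S) : Finset (Pt S) := (finite_orbit S x).toFinset

lemma mem_orb {S : Prd C} {x y : Pt S} : y ∈ orb x ↔ ∃ γ : C.Γ, γ • x = y := by
  unfold orb
  rw [Set.Finite.mem_toFinset]
  rfl

/-- the orbit of one coordinate -/
noncomputable def orb1 {j : C.J} (x : C.CM j) : Finset (C.CM j) := (C.fin_orb x).toFinset

lemma mem_orb1 {j : C.J} {x y : C.CM j} : y ∈ orb1 x ↔ ∃ γ : C.Γ, γ • x = y := by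
  unfold orb1
  rw [Set.Finite.mem_toFinset]
  rfl

/-- the basic special subvarieties -/
def Spec (S : Prd C) : Set (Set (Sp S)) :=
  {Z | ∃ (i : S.ι) (τ : C.CM (S.φ i)), Z = {x | x i = C.pt τ}} ∪
  {Z | ∃ i j : S.ι, i ≠ j ∧ ∃ R ∈ C.Hecke (S.φ i) (S.φ j), Z = {x | (x i, x j) ∈ R}}

lemma spec_countable (S : Prd C) : (Spec S).Countable := by
  refine Set.Countable.union ?_ ?_
  · have : {Z : Set (Sp S) | ∃ (i : S.ι) (τ : C.CM (S.φ i)), Z = {x | x i = C.pt τ}} =
        Set.range fun p : Σ i : S.ι, C.CM (S.φ i) => {x : Sp S | x p.1 = C.pt p.2} := by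
      ext Z
      constructor
      · rintro ⟨i, τ, rfl⟩
        exact ⟨⟨i, τ⟩, rfl⟩
      · rintro ⟨⟨i, τ⟩, rfl⟩
        exact ⟨i, τ, rfl⟩
    rw [this]
    exact Set.countable_range _
  · have : {Z : Set (Sp S) | ∃ i j : S.ι, i ≠ j ∧ ∃ R ∈ C.Hecke (S.φ i) (S.φ j), Z = {x | (x i, x j) ∈ R}} ⊆
        ⋃ i : S.ι, ⋃ j : S.ι, (fun R : Set (C.Y (S.φ i) × C.Y (S.φ j)) => {x : Sp S | (x i, x j) ∈ R}) ''
          C.Hecke (S.φ i) (S.φ j) := by
      rintro Z ⟨i, j, -, R, hR, rfl⟩
      rw [Set.mem_iUnion]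
      refine ⟨i, ?_⟩
      rw [Set.mem_iUnion]
      exact ⟨j, R, hR, rfl⟩
    refine Set.Countable.mono this ?_
    exact Set.countable_iUnion fun i => Set.countable_iUnion fun j => (C.hecke_countable _ _).image _

/-- the power -/
def pow (S : Prd C) (k : ℕ) : Prd C where
  ι := Σ _ : Fin (k + 1), S.ι
  ne := ⟨⟨0, S.ne.some⟩⟩
  φ := fun p => S.φ p.2

def powX (S : Prd C) (k : ℕ) : Sp (pow S k) ≃ₜ (Fin (k + 1) → Sp S) where
  toEquiv := Equiv.piCurry fun (_ : Fin (k + 1)) (i : S.ι) => C.Y (S.φ i)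
  continuous_toFun := by
    refine continuous_pi fun l => continuous_pi fun i => ?_
    exact continuous_apply (⟨l, i⟩ : Σ _ : Fin (k + 1), S.ι)
  continuous_invFun := by
    refine continuous_pi fun p => ?_
    exact (continuous_apply p.2).comp (continuous_apply p.1)

def powP (S : Prd C) (k : ℕ) : Pt (pow S k) ≃ (Fin (k + 1) → Pt S) :=
  Equiv.piCurry fun (_ : Fin (k + 1)) (i : S.ι) => C.CM (S.φ i)

lemma pow_m (S : Prd C) (k : ℕ) :
    MeasurePreserving (powX S k) (Measure.pi fun p : (pow S k).ι => C.μ ((pow S k).φ p))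
      (Measure.pi fun _ : Fin (k + 1) => Measure.pi fun i => C.μ (S.φ i)) := by
  refine ⟨(powX S k).continuous.measurable, ?_⟩
  have h1 := Measure.infinitePi_map_piCurry (ι := Fin (k + 1)) (κ := fun _ => S.ι) (X := fun _ i => C.Y (S.φ i))
    (fun _ i => C.μ (S.φ i))
  simp only [Measure.infinitePi_eq_pi] at h1
  exact h1

/-- tuples with a relation between two different entries -/
lemma pair_count {α : Type} [DecidableEq α] (A : Finset α) (k : ℕ) (l l' : Fin (k + 1)) (hl : l ≠ l')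
    (R : α → α → Prop) [DecidableRel R] (B : ℕ) (hB : ∀ u ∈ A, (A.filter fun z => R u z).card ≤ B) :
    ((Fintype.piFinset fun _ : Fin (k + 1) => A).filter fun y => R (y l) (y l')).card ≤ B * A.card ^ k := by
  rcases A.eq_empty_or_nonempty with rfl | ⟨a0, ha0⟩
  · have : (Fintype.piFinset fun _ : Fin (k + 1) => (∅ : Finset α)) = ∅ := by
      refine Finset.eq_empty_of_forall_notMem fun y hy => ?_
      exact absurd (Fintype.mem_piFinset.1 hy 0) (Finset.notMem_empty _)
    rw [this, Finset.filter_empty, Finset.card_empty]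
    exact Nat.zero_le _
  · set t : Finset (Fin (k + 1) → α) := Fintype.piFinset fun j => if j = l' then {a0} else A with ht
    have hcard : t.card = A.card ^ k := by
      rw [ht, Fintype.card_piFinset]
      rw [← Finset.mul_prod_erase Finset.univ _ (Finset.mem_univ l')]
      rw [if_pos rfl, Finset.card_singleton, one_mul]
      rw [Finset.prod_congr rfl (g := fun _ => A.card) fun j hj => by rw [if_neg (Finset.ne_of_mem_erase hj)]]
      rw [Finset.prod_const, Finset.card_erase_of_mem (Finset.mem_univ _), Finset.card_univ, Fintype.card_fin,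
        Nat.add_sub_cancel]
    rw [← hcard]
    refine Finset.card_le_mul_card_image_of_maps_to (f := fun y => Function.update y l' a0) ?_ B ?_
    · intro y hy
      rw [Finset.mem_filter, Fintype.mem_piFinset] at hy
      rw [ht, Fintype.mem_piFinset]
      intro j
      by_cases hj : j = l'
      · subst hj
        simp
      · rw [Function.update_of_ne hj, if_neg hj]
        exact hy.1 j
    · intro b hb
      rw [ht, Fintype.mem_piFinset] at hb
      have hbl : b l ∈ A := by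
        have := hb l
        rwa [if_neg hl] at this
      refine le_trans (Finset.card_le_card_of_injOn (fun y => y l') ?_ ?_) (hB (b l) hbl)
      · intro y hy
        rw [Finset.mem_coe, Finset.mem_filter, Finset.mem_filter, Fintype.mem_piFinset] at hy
        obtain ⟨⟨h1, h2⟩, h3⟩ := hy
        rw [Finset.mem_coe, Finset.mem_filter]
        have h4 : y l = b l := by
          have : Function.update y l' a0 l = b l := congrFun h3 l
          rwa [Function.update_of_ne hl] at this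
        refine ⟨h1 l', ?_⟩
        rw [← h4]
        exact h2
      · intro y hy z hz hyz
        rw [Finset.mem_coe, Finset.mem_filter] at hy hz
        funext j
        by_cases hj : j = l'
        · subst hj
          exact hyz
        · have h1 : Function.update y l' a0 j = b j := congrFun hy.2 j
          have h2 : Function.update z l' a0 j = b j := congrFun hz.2 j
          rw [Function.update_of_ne hj] at h1 h2
          rw [h1, h2]

open Classical in
/-- the fibres of the projection of an orbit to a coordinate have the same size -/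
lemma fibre {S : Prd C} (x : Pt S) (a : S.ι) (w : C.CM (S.φ a)) (hw : w ∈ orb1 (x a)) :
    ((orb x).filter fun z => z a = w).card * (orb1 (x a)).card = (orb x).card := by
  have hfib : ∀ w' ∈ orb1 (x a), ((orb x).filter fun z => z a = w').card = ((orb x).filter fun z => z a = w).card := by
    intro w' hw'
    obtain ⟨γ, hγ⟩ := mem_orb1.1 hw
    obtain ⟨γ', hγ'⟩ := mem_orb1.1 hw'
    have hww : w = (γ * γ'⁻¹) • w' := by rw [← hγ', smul_smul, inv_mul_cancel_right, hγ]
    refine Finset.card_bij (fun z _ => (γ * γ'⁻¹) • z) ?_ ?_ ?_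
    · intro z hz
      rw [Finset.mem_filter, mem_orb] at hz ⊢
      obtain ⟨⟨g, hg⟩, hz2⟩ := hz
      refine ⟨⟨γ * γ'⁻¹ * g, by rw [mul_smul, hg]⟩, ?_⟩
      rw [Pi.smul_apply, hz2, hww]
    · intro z _ z' _ h
      exact smul_left_cancel _ h
    · intro z hz
      rw [Finset.mem_filter, mem_orb] at hz
      obtain ⟨⟨g, hg⟩, hz2⟩ := hz
      refine ⟨(γ * γ'⁻¹)⁻¹ • z, ?_, smul_inv_smul _ _⟩
      rw [Finset.mem_filter, mem_orb]
      refine ⟨⟨(γ * γ'⁻¹)⁻¹ * g, by rw [mul_smul, hg]⟩, ?_⟩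
      rw [Pi.smul_apply, hz2, hww, inv_smul_smul]
  have hmaps : ∀ z ∈ orb x, z a ∈ orb1 (x a) := by
    intro z hz
    obtain ⟨g, hg⟩ := mem_orb.1 hz
    exact mem_orb1.2 ⟨g, by rw [← hg, Pi.smul_apply]⟩
  rw [Finset.card_eq_sum_card_fiberwise hmaps, Finset.sum_congr rfl hfib, Finset.sum_const, smul_eq_mul, mul_comm]

open Classical in
/-- at most a small proportion of an orbit has a coordinate in a given set with few elements -/
lemma few {S : Prd C} (x : Pt S) (a : S.ι) (D : ℕ) (Q : C.CM (S.φ a) → Prop)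
    (hQ : ∀ A : Finset (C.CM (S.φ a)), (∀ w ∈ A, Q w) → A.card ≤ D) :
    ((orb x).filter fun z => Q (z a)).card * (orb1 (x a)).card ≤ D * (orb x).card := by
  set W := (orb1 (x a)).filter Q with hW
  have hWD : W.card ≤ D := hQ W fun w hw => (Finset.mem_filter.1 hw).2
  have hmaps : ∀ z ∈ (orb x).filter (fun z => Q (z a)), z a ∈ W := by
    intro z hz
    rw [Finset.mem_filter] at hz
    obtain ⟨g, hg⟩ := mem_orb.1 hz.1
    rw [hW, Finset.mem_filter]
    exact ⟨mem_orb1.2 ⟨g, by rw [← hg, Pi.smul_apply]⟩, hz.2⟩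
  rw [Finset.card_eq_sum_card_fiberwise hmaps, Finset.sum_mul]
  calc ∑ w ∈ W, (((orb x).filter fun z => Q (z a)).filter fun z => z a = w).card * (orb1 (x a)).card
      ≤ ∑ w ∈ W, (orb x).card := by
        refine Finset.sum_le_sum fun w hw => ?_
        rw [← fibre x a w (Finset.mem_filter.1 hw).1]
        refine Nat.mul_le_mul_right _ (Finset.card_le_card ?_)
        intro z hz
        rw [Finset.mem_filter, Finset.mem_filter] at hz
        rw [Finset.mem_filter]
        exact ⟨hz.1.1, hz.2⟩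
    _ = W.card * (orb x).card := by rw [Finset.sum_const, smul_eq_mul]
    _ ≤ D * (orb x).card := Nat.mul_le_mul_right _ hWD

lemma orb1_card {j : C.J} (x : C.CM j) : (orb1 x).card = (MulAction.orbit C.Γ x).ncard := by
  unfold orb1
  rw [Set.ncard_eq_toFinset_card _ (C.fin_orb x)]

lemma orb1_tendsto {j : C.J} (w : ℕ → C.CM j) (hw : ∀ τ : C.CM j, ∀ᶠ n in atTop, w n ≠ τ) :
    Tendsto (fun n => (orb1 (w n)).card) atTop atTop := by
  rw [tendsto_atTop]
  intro B
  have h1 : ∀ᶠ n in atTop, ∀ τ ∈ (C.big j B).toFinset, w n ≠ τ := by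
    rw [Finset.eventually_all]
    exact fun τ _ => hw τ
  filter_upwards [h1] with n hn
  by_contra hlt
  push Not at hlt
  refine hn (w n) ?_ rfl
  rw [Set.Finite.mem_toFinset]
  show (MulAction.orbit C.Γ (w n)).ncard ≤ B
  rw [← orb1_card]
  exact hlt.le

lemma orb_pos {S : Prd C} (x : Pt S) : 0 < (orb x).card := Finset.card_pos.2 ⟨x, mem_orb.2 ⟨1, one_smul _ _⟩⟩

open Classical in
/-- tuples of conjugates are usually not in a given special subvariety -/
lemma generic (S : Prd C) (k : ℕ) (x : ℕ → Pt S)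
    (hx : ∀ Z ∈ Spec S, ∀ᶠ i in atTop, (fun a => C.pt (x i a) : Sp S) ∉ Z) (Z : Set (Sp (pow S k)))
    (hZ : Z ∈ Spec (pow S k)) :
    Tendsto (fun i => (((Fintype.piFinset fun _ : Fin (k + 1) => orb (x i)).filter
      fun y => (fun a => C.pt ((powP S k).symm y a) : Sp (pow S k)) ∈ Z).card : ℝ) / ((orb (x i)).card : ℝ) ^ (k + 1))
      atTop (𝓝 0) := by
  have hconst : ∀ (a : S.ι) (τ : C.CM (S.φ a)), ∀ᶠ n in atTop, x n a ≠ τ := by
    intro a τ
    filter_upwards [hx {x | x a = C.pt τ} (Or.inl ⟨a, τ, rfl⟩)] with n hn h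
    exact hn (congrArg C.pt h)
  have hzero : (∀ᶠ i in atTop, ∀ y ∈ Fintype.piFinset fun _ : Fin (k + 1) => orb (x i),
      (fun a => C.pt ((powP S k).symm y a) : Sp (pow S k)) ∉ Z) →
      Tendsto (fun i => (((Fintype.piFinset fun _ : Fin (k + 1) => orb (x i)).filter
      fun y => (fun a => C.pt ((powP S k).symm y a) : Sp (pow S k)) ∈ Z).card : ℝ) / ((orb (x i)).card : ℝ) ^ (k + 1))
      atTop (𝓝 0) := by
    intro h
    refine tendsto_const_nhds.congr' ?_
    filter_upwards [h] with i hi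
    rw [Finset.filter_eq_empty_iff.2 fun {y} hy => hi y hy, Finset.card_empty, Nat.cast_zero, zero_div]
  rcases hZ with ⟨⟨l, a⟩, τ, rfl⟩ | ⟨⟨l, a⟩, ⟨l', a'⟩, hne, R, hR, rfl⟩
  · apply hzero
    have h1 : ∀ᶠ n in atTop, ∀ τ' ∈ orb1 (j := S.φ a) τ, x n a ≠ τ' := by
      rw [Finset.eventually_all]
      exact fun τ' _ => hconst a τ'
    filter_upwards [h1] with n hn y hy hmem
    rw [Fintype.mem_piFinset] at hy
    obtain ⟨γ, hγ⟩ := mem_orb.1 (hy l)
    have h2 : y l a = τ := C.pt_inj (j := S.φ a) _ _ hmem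
    refine hn (x n a) (mem_orb1.2 ⟨γ⁻¹, ?_⟩) rfl
    rw [inv_smul_eq_iff, ← h2, ← hγ, Pi.smul_apply]
  · by_cases hll : l = l'
    · subst hll
      have haa : a ≠ a' := fun h => hne (by rw [h])
      apply hzero
      obtain ⟨𝒯, h𝒯, h𝒯H, hgal⟩ := C.hecke_gal (S.φ a) (S.φ a') R hR
      have h1 : ∀ᶠ n in atTop, ∀ R' ∈ h𝒯.toFinset, (C.pt (x n a), C.pt (x n a')) ∉ R' := by
        rw [Finset.eventually_all]
        intro R' hR'
        rw [Set.Finite.mem_toFinset] at hR'
        exact hx {x | (x a, x a') ∈ R'} (Or.inr ⟨a, a', haa, R', h𝒯H hR', rfl⟩)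
      filter_upwards [h1] with n hn y hy hmem
      rw [Fintype.mem_piFinset] at hy
      obtain ⟨γ, hγ⟩ := mem_orb.1 (hy l)
      have h2 : (C.pt (y l a), C.pt (y l a')) ∈ R := hmem
      rw [← hγ, Pi.smul_apply, Pi.smul_apply] at h2
      obtain ⟨R', hR', h3⟩ := hgal γ _ _ h2
      exact hn R' (h𝒯.mem_toFinset.2 hR') h3
    · obtain ⟨D, hD⟩ := C.hecke_deg (S.φ a) (S.φ a') R hR
      have hbig := orb1_tendsto (fun n => x n a') (hconst a')
      have hbig' : Tendsto (fun n => (D : ℝ) / ((orb1 (x n a')).card : ℝ)) atTop (𝓝 0) :=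
        (tendsto_const_nhds.div_atTop (tendsto_natCast_atTop_atTop.comp hbig))
      refine squeeze_zero (fun n => by positivity) (fun n => ?_) hbig'
      set N := (orb (x n)).card with hN
      set M := (orb1 (x n a')).card with hM
      have hN0 : 0 < N := orb_pos _
      have hM0 : 0 < M := Finset.card_pos.2 ⟨x n a', mem_orb1.2 ⟨1, one_smul _ _⟩⟩
      have h1 : ∀ u ∈ orb (x n), ((orb (x n)).filter fun z => (C.pt (u a), C.pt (z a')) ∈ R).card ≤ D * N / M := by
        intro u _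
        rw [Nat.le_div_iff_mul_le hM0]
        exact few (x n) a' D (fun w => (C.pt (u a), C.pt w) ∈ R) (hD _)
      have h2 := pair_count (orb (x n)) k l l' hll (fun u z => (C.pt (u a), C.pt (z a')) ∈ R) _ h1
      have h3 : (((Fintype.piFinset fun _ : Fin (k + 1) => orb (x n)).filter
          fun y => (C.pt (y l a), C.pt (y l' a')) ∈ R).card : ℝ) ≤ (D * N / M : ℕ) * (N : ℝ) ^ k := by
        exact_mod_cast h2
      have h4 : ((D * N / M : ℕ) : ℝ) ≤ D * N / M := by
        have := @Nat.cast_div_le ℝ _ _ _ (D * N) M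
        push_cast at this
        exact this
      have hNr : (0 : ℝ) < N := by exact_mod_cast hN0
      have hMr : (0 : ℝ) < M := by exact_mod_cast hM0
      rw [div_le_iff₀ (pow_pos hNr _)]
      refine h3.trans ?_
      calc ((D * N / M : ℕ) : ℝ) * (N : ℝ) ^ k ≤ (D * N / M) * (N : ℝ) ^ k :=
            mul_le_mul_of_nonneg_right h4 (pow_nonneg hNr.le _)
        _ = D / M * (N : ℝ) ^ (k + 1) := by rw [pow_succ]; ring

open Classical in
/-- proportions of orbits and of their projections to a coordinate -/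
lemma proj_count {S : Prd C} (x : Pt S) (a : S.ι) (Q : C.CM (S.φ a) → Prop) :
    ((orb x).filter fun z => Q (z a)).card * (orb1 (x a)).card = ((orb1 (x a)).filter Q).card * (orb x).card := by
  set W := (orb1 (x a)).filter Q with hW
  have hmaps : ∀ z ∈ (orb x).filter (fun z => Q (z a)), z a ∈ W := by
    intro z hz
    rw [Finset.mem_filter] at hz
    obtain ⟨g, hg⟩ := mem_orb.1 hz.1
    rw [hW, Finset.mem_filter]
    exact ⟨mem_orb1.2 ⟨g, by rw [← hg, Pi.smul_apply]⟩, hz.2⟩
  rw [Finset.card_eq_sum_card_fiberwise hmaps, Finset.sum_mul, ← smul_eq_mul W.card, ← Finset.sum_const]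
  refine Finset.sum_congr rfl fun w hw => ?_
  rw [← fibre x a w (Finset.mem_filter.1 hw).1]
  congr 2
  ext z
  rw [Finset.mem_filter, Finset.mem_filter, Finset.mem_filter]
  constructor
  · rintro ⟨⟨h1, -⟩, h3⟩
    exact ⟨h1, h3⟩
  · rintro ⟨h1, h3⟩
    exact ⟨⟨h1, by rw [h3]; exact (Finset.mem_filter.1 hw).2⟩, h3⟩

variable (C)

/-- the theory of the products -/
noncomputable def equi : EquiTheory.{1} where
  Sh := Prd C
  dim S := Fintype.card S.ι
  dim_pos S := Fintype.card_pos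
  X := Sp
  m S := Measure.pi fun i => C.μ (S.φ i)
  P := Pt
  pt x := fun i => C.pt (x i)
  orb := orb
  self_mem x := mem_orb.2 ⟨1, one_smul _ _⟩
  orb_eq := by
    intro S x y hy
    obtain ⟨γ, rfl⟩ := mem_orb.1 hy
    ext z
    rw [mem_orb, mem_orb]
    constructor
    · rintro ⟨g, rfl⟩
      exact ⟨g * γ, mul_smul _ _ _⟩
    · rintro ⟨g, rfl⟩
      exact ⟨g * γ⁻¹, by rw [mul_smul, inv_smul_smul]⟩
  Spec := Spec
  spec_countable := spec_countable
  pow := pow
  dim_pow := by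
    intro S k
    show Fintype.card (Σ _ : Fin (k + 1), S.ι) = _
    rw [Fintype.card_sigma]
    simp
  powX := powX
  powP := powP
  pow_pt := fun _ _ _ _ => rfl
  pow_orb := by
    intro S k y z hz i
    obtain ⟨γ, rfl⟩ := mem_orb.1 hz
    exact mem_orb.2 ⟨γ, rfl⟩
  pow_m := pow_m
  generic := generic

/-- strict sequences -/
def StrictSeq {ι : Type} {φ : ι → C.J} (x : ℕ → ∀ i, C.CM (φ i)) : Prop :=
  (∀ (i : ι) (τ : C.CM (φ i)), ∀ᶠ n in atTop, x n i ≠ τ) ∧
  ∀ i j : ι, i ≠ j → ∀ R ∈ C.Hecke (φ i) (φ j), ∀ᶠ n in atTop, (C.pt (x n i), C.pt (x n j)) ∉ R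

lemma strict_iff {S : Prd C} (x : ℕ → Pt S) : StrictSeq C x ↔ Strict (equi C) (S := S) x := by
  constructor
  · rintro ⟨h1, h2⟩ Z (⟨i, τ, rfl⟩ | ⟨i, j, hij, R, hR, rfl⟩)
    · filter_upwards [h1 i τ] with n hn h
      exact hn (C.pt_inj _ _ h)
    · exact h2 i j hij R hR
  · intro h
    refine ⟨fun i τ => ?_, fun i j hij R hR => h _ (Or.inr ⟨i, j, hij, R, hR, rfl⟩)⟩
    filter_upwards [h _ (Or.inl ⟨i, τ, rfl⟩)] with n hn h
    exact hn (congrArg C.pt h)

lemma noEscape (S : Prd C) : NoEscape (equi C) S := by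
  classical
  intro x hx ε hε
  obtain ⟨h1, -⟩ := (strict_iff C x).2 hx
  have hι : (0 : ℝ) < Fintype.card S.ι := by exact_mod_cast Fintype.card_pos
  have hK : ∀ a : S.ι, ∃ K : Set (C.Y (S.φ a)), IsCompact K ∧ ∀ᶠ n in atTop,
      ((orb (x n)).filter fun z => C.pt (z a) ∉ K).card ≤ ε / Fintype.card S.ι * (orb (x n)).card := by
    intro a
    obtain ⟨K, hK, hK'⟩ := C.tight (S.φ a) (fun n => x n a) (h1 a) (ε / Fintype.card S.ι) (by positivity)
    refine ⟨K, hK, ?_⟩
    filter_upwards [hK'] with n hn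
    have h2 := proj_count (x n) a (fun w => C.pt w ∉ K)
    have h3 : (((orb1 (x n a)).filter fun w => C.pt w ∉ K).card : ℝ) ≤
        ε / Fintype.card S.ι * (orb1 (x n a)).card := by
      rw [orb1_card]
      refine le_trans (le_of_eq ?_) hn
      rw [← Set.ncard_coe_finset]
      congr 2
      ext w
      rw [Finset.mem_coe, Finset.mem_filter, mem_orb1]
      rfl
    have hM : (0 : ℝ) < (orb1 (x n a)).card := by
      exact_mod_cast Finset.card_pos.2 ⟨x n a, mem_orb1.2 ⟨1, one_smul _ _⟩⟩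
    have h2' : (((orb (x n)).filter fun z => C.pt (z a) ∉ K).card : ℝ) * (orb1 (x n a)).card =
        ((orb1 (x n a)).filter fun w => C.pt w ∉ K).card * (orb (x n)).card := by
      rw [← Nat.cast_mul, ← Nat.cast_mul]
      congr 1
      convert h2
    refine le_of_mul_le_mul_right ?_ hM
    rw [h2']
    have h5 := mul_le_mul_of_nonneg_right h3 (Nat.cast_nonneg (α := ℝ) (orb (x n)).card)
    linarith
  choose K hK1 hK2 using hK
  refine ⟨Set.pi Set.univ K, isCompact_univ_pi hK1, ?_⟩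
  have hall : ∀ᶠ n in atTop, ∀ a : S.ι,
      ((orb (x n)).filter fun z => C.pt (z a) ∉ K a).card ≤ ε / Fintype.card S.ι * (orb (x n)).card :=
    Filter.eventually_all.2 hK2
  filter_upwards [hall] with n hn
  have hsub : ((orb (x n)).filter fun z : Pt S => ¬ (fun i => C.pt (z i) : Sp S) ∈ Set.pi Set.univ K) ⊆
      Finset.univ.biUnion fun a : S.ι => (orb (x n)).filter fun z => C.pt (z a) ∉ K a := by
    intro z hz
    rw [Finset.mem_filter, Set.mem_univ_pi] at hz
    obtain ⟨hz1, hz2⟩ := hz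
    push Not at hz2
    obtain ⟨a, ha⟩ := hz2
    rw [Finset.mem_biUnion]
    exact ⟨a, Finset.mem_univ _, by rw [Finset.mem_filter]; exact ⟨hz1, ha⟩⟩
  have h6 := (Finset.card_le_card hsub).trans Finset.card_biUnion_le
  have h7 : (((orb (x n)).filter fun z : Pt S => ¬ (fun i => C.pt (z i) : Sp S) ∈ Set.pi Set.univ K).card : ℝ) ≤
      ∑ a : S.ι, (((orb (x n)).filter fun z => C.pt (z a) ∉ K a).card : ℝ) := by exact_mod_cast h6
  have h8 : ∑ a : S.ι, (((orb (x n)).filter fun z => C.pt (z a) ∉ K a).card : ℝ) ≤ ε * (orb (x n)).card := by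
    refine (Finset.sum_le_sum fun a _ => hn a).trans (le_of_eq ?_)
    rw [Finset.sum_const, Finset.card_univ, nsmul_eq_mul]
    field_simp
  have h9 : (((orb (x n)).filter fun z : Pt S => (fun i => C.pt (z i) : Sp S) ∈ Set.pi Set.univ K).card : ℝ) +
      ((orb (x n)).filter fun z : Pt S => ¬ (fun i => C.pt (z i) : Sp S) ∈ Set.pi Set.univ K).card =
      (orb (x n)).card := by
    exact_mod_cast Finset.card_filter_add_card_filter_not _
  show (1 - ε) * ((orb (x n)).card : ℝ) ≤
    (((orb (x n)).filter fun z : Pt S => (fun i => C.pt (z i) : Sp S) ∈ Set.pi Set.univ K).card : ℝ)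
  linarith

end Pool.Agent.U644.EQ.Mod
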